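import Mathlib

set_option autoImplicit false

namespace Pool.Agent.H.MP_b25485_lc

open Set Filter

variable {F : Type} [Field F]

/-- Infinite block sequence. -/
def Blk (X : ℕ → (ℕ →₀ F)) : Prop :=
  ∀ n, X n ≠ 0 ∧ ∀ i ∈ (X n).support, ∀ j ∈ (X (n+1)).support, i < j

/-- Span with zero removed. -/
def Sp (X : ℕ → (ℕ →₀ F)) : Set (ℕ →₀ F) :=
  (Submodule.span F (Set.range X) : Set (ℕ →₀ F)) \ {0}

theorem Blk.lt {X : ℕ → (ℕ →₀ F)} (h : Blk X) {m n : ℕ} (hmn : m < n) :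
    ∀ i ∈ (X m).support, ∀ j ∈ (X n).support, i < j := by
  induction n, hmn using Nat.le_induction with
  | base => exact (h m).2
  | succ n _ ih =>
    intro i hi j hj
    obtain ⟨k, hk⟩ := Finsupp.support_nonempty_iff.2 (h n).1
    exact (ih i hi k hk).trans ((h n).2 k hk j hj)

theorem Blk.le {X : ℕ → (ℕ →₀ F)} (h : Blk X) (n : ℕ) : ∀ j ∈ (X n).support, n ≤ j := by
  induction n with
  | zero => intro j _; exact Nat.zero_le _
  | succ n ih =>
    intro j hj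
    obtain ⟨k, hk⟩ := Finsupp.support_nonempty_iff.2 (h n).1
    have := ih k hk
    have := (h n).2 k hk j hj
    omega

theorem Blk.zero {X : ℕ → (ℕ →₀ F)} (h : Blk X) {m n t : ℕ} (hmn : m ≠ n)
    (ht : t ∈ (X n).support) : X m t = 0 := by
  by_contra hne
  have hm : t ∈ (X m).support := Finsupp.mem_support_iff.2 hne
  rcases lt_or_gt_of_ne hmn with h1 | h1
  · exact lt_irrefl _ (h.lt h1 t hm t ht)
  · exact lt_irrefl _ (h.lt h1 t ht t hm)

theorem Blk.inf {X : ℕ → (ℕ →₀ F)} (h : Blk X) :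
    ¬ FiniteDimensional F (Submodule.span F (Set.range X)) := by
  intro hf
  have hli : LinearIndependent F X := by
    rw [linearIndependent_iff']
    intro s g hs j hj
    obtain ⟨t, ht⟩ := Finsupp.support_nonempty_iff.2 (h j).1
    have h1 := congrArg (fun v : ℕ →₀ F => v t) hs
    simp only [Finsupp.finset_sum_apply, Finsupp.smul_apply, smul_eq_mul, Finsupp.zero_apply] at h1
    rw [Finset.sum_eq_single j] at h1
    · exact (mul_eq_zero.1 h1).resolve_right (Finsupp.mem_support_iff.1 ht)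
    · intro b _ hb
      rw [h.zero hb ht, mul_zero]
    · intro h2; exact absurd hj h2
  have h2 := linearIndependent_span hli
  have : Finite ℕ := h2.finite
  exact not_finite ℕ

theorem span_sum {X : ℕ → (ℕ →₀ F)} {v : ℕ →₀ F} (hv : v ∈ Submodule.span F (Set.range X)) :
    ∃ (a : ℕ → F) (m : ℕ), v = ∑ i ∈ Finset.Ico 0 m, a i • X i := by
  obtain ⟨c, rfl⟩ := Finsupp.mem_span_range_iff_exists_finsupp.1 hv
  obtain ⟨m, hm⟩ := c.support.exists_nat_subset_range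
  refine ⟨c, m, ?_⟩
  rw [Finsupp.sum_of_support_subset c hm _ (by simp), Finset.range_eq_Ico]

/-- Block filter base property. -/
def Base (𝓕 : Filter (ℕ →₀ F)) : Prop := ∀ A ∈ 𝓕, ∃ X, Blk X ∧ Sp X ∈ 𝓕 ∧ Sp X ⊆ A

/-- Fullness. -/
def Full (𝓕 : Filter (ℕ →₀ F)) : Prop :=
  ∀ D : Set (ℕ →₀ F), (∀ X, Blk X → Sp X ∈ 𝓕 → ∃ V : Submodule F (ℕ →₀ F),
    ¬ FiniteDimensional F V ∧ ((V : Set (ℕ →₀ F)) \ {0}) ⊆ Sp X ∧
      ((V : Set (ℕ →₀ F)) \ {0}) ⊆ D) → D ∈ 𝓕

/-- Marked vectors: first and last coefficient equal to one. -/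
def Mk (u : ℕ →₀ F) (p q : ℕ) : Prop := u p = 1 ∧ u q = 1 ∧ ∀ t ∈ u.support, p ≤ t ∧ t ≤ q

theorem exMk {𝓕 : Filter (ℕ →₀ F)} (hb : Base 𝓕) {C : Set (ℕ →₀ F)} (hC : C ∈ 𝓕) (N : ℕ) :
    ∃ u ∈ C, ∃ p q, N ≤ p ∧ Mk u p q := by
  obtain ⟨Z, hZ, -, hs⟩ := hb C hC
  have h0 := Finsupp.support_nonempty_iff.2 (hZ N).1
  have h1 := Finsupp.support_nonempty_iff.2 (hZ (N+1)).1
  set p := (Z N).support.min' h0 with hp
  set q := (Z (N+1)).support.max' h1 with hq
  have hpm : p ∈ (Z N).support := Finset.min'_mem _ _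
  have hqm : q ∈ (Z (N+1)).support := Finset.max'_mem _ _
  have e1 : Z (N+1) p = 0 := hZ.zero (by omega) hpm
  have e2 : Z N q = 0 := hZ.zero (by omega) hqm
  have n1 := Finsupp.mem_support_iff.1 hpm
  have n2 := Finsupp.mem_support_iff.1 hqm
  have hu : ((Z N p)⁻¹ • Z N + (Z (N+1) q)⁻¹ • Z (N+1)) p = 1 := by
    simp [e1, n1]
  refine ⟨(Z N p)⁻¹ • Z N + (Z (N+1) q)⁻¹ • Z (N+1), hs ⟨?_, ?_⟩, p, q, hZ.le N p hpm, hu, ?_, ?_⟩
  · exact add_mem (Submodule.smul_mem _ _ (Submodule.subset_span ⟨_, rfl⟩))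
      (Submodule.smul_mem _ _ (Submodule.subset_span ⟨_, rfl⟩))
  · intro h
    rw [Set.mem_singleton_iff] at h
    rw [h] at hu
    simp at hu
  · simp [e2, n2]
  · intro t ht
    have : t ∈ (Z N).support ∨ t ∈ (Z (N+1)).support := by
      by_contra hc
      push Not at hc
      rw [Finsupp.notMem_support_iff, Finsupp.notMem_support_iff] at hc
      exact Finsupp.mem_support_iff.1 ht (by simp [hc.1, hc.2])
    rcases this with h | h
    · exact ⟨Finset.min'_le _ _ h, ((hZ N).2 t h q hqm).le⟩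
    · exact ⟨((hZ N).2 p hpm t h).le, Finset.le_max' _ _ h⟩

/-- Decompositions into marked blocks obeying the history-dependent sets. -/
inductive Dec (B : List (ℕ →₀ F) → Set (ℕ →₀ F)) : List (ℕ →₀ F) → (ℕ →₀ F) → Prop
  | base (s : List (ℕ →₀ F)) : Dec B s 0
  | step (s : List (ℕ →₀ F)) (u w : ℕ →₀ F) (a : F) (p q : ℕ) : u ∈ B s → Mk u p q → a ≠ 0 →
      (∀ t ∈ w.support, q < t) → Dec B (s ++ [u]) w → Dec B s (a • u + w)

theorem dec_mem {𝓕 : Filter (ℕ →₀ F)} (hb : Base 𝓕) (hf : Full 𝓕)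
    (B : List (ℕ →₀ F) → Set (ℕ →₀ F)) (hB : ∀ s, B s ∈ 𝓕) : {v | Dec B [] v} ∈ 𝓕 := by
  apply hf
  intro X hX hXF
  have key : ∀ σ : List (ℕ →₀ F) × ℕ, ∃ u : (ℕ →₀ F) × ℕ × ℕ, u.1 ∈ Sp X ∧
      (∀ s, s.Sublist σ.1 → u.1 ∈ B s) ∧ σ.2 ≤ u.2.1 ∧ Mk u.1 u.2.1 u.2.2 := by
    intro σ
    have hC : (Sp X ∩ ⋂ s ∈ {s | s ∈ σ.1.sublists}, B s) ∈ 𝓕 :=
      inter_mem hXF ((biInter_mem (List.finite_toSet _)).2 fun s _ => hB s)
    obtain ⟨u, hu, p, q, h1, h2⟩ := exMk hb hC σ.2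
    refine ⟨(u, p, q), hu.1, fun s hs => ?_, h1, h2⟩
    exact Set.mem_iInter₂.1 hu.2 s (List.mem_sublists.2 hs)
  choose f hf1 hf2 hf3 hf4 using key
  let σ : ℕ → List (ℕ →₀ F) × ℕ := fun n =>
    Nat.rec ([], 0) (fun _ x => (x.1 ++ [(f x).1], (f x).2.2 + 1)) n
  let y : ℕ → (ℕ →₀ F) := fun n => (f (σ n)).1
  have hy0 : ∀ n, y n ≠ 0 := fun n => (hf1 (σ n)).2
  have hyB : Blk y := by
    intro n
    refine ⟨hy0 n, fun i hi j hj => ?_⟩
    have h1 := ((hf4 (σ n)).2.2 i hi).2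
    have h2 := ((hf4 (σ (n+1))).2.2 j hj).1
    have h3 : (f (σ n)).2.2 + 1 ≤ (f (σ (n+1))).2.1 := hf3 (σ (n+1))
    omega
  refine ⟨Submodule.span F (Set.range y), hyB.inf, ?_, ?_⟩
  · intro v hv
    refine ⟨Submodule.span_le.2 ?_ hv.1, hv.2⟩
    rintro _ ⟨n, rfl⟩
    exact (hf1 (σ n)).1
  · intro v hv
    obtain ⟨a, m, rfl⟩ := span_sum hv.1
    have H : ∀ d n, n + d = m → ∀ s : List (ℕ →₀ F), s.Sublist (σ n).1 →
        Dec B s (∑ i ∈ Finset.Ico n m, a i • y i) := by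
      intro d
      induction d with
      | zero => intro n hn s _; simp only [← hn, Nat.add_zero, Finset.Ico_self, Finset.sum_empty]; exact Dec.base s
      | succ d ih =>
        intro n hn s hs
        rw [Finset.sum_eq_sum_Ico_succ_bot (by omega)]
        by_cases ha : a n = 0
        · rw [ha, zero_smul, zero_add]
          exact ih (n+1) (by omega) s (hs.trans (List.sublist_append_left _ _))
        · refine Dec.step s (y n) _ (a n) _ _ (hf2 (σ n) s hs) (hf4 (σ n)) ha ?_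
            (ih (n+1) (by omega) _ (hs.append (List.Sublist.refl _)))
          intro t ht
          rw [Finsupp.mem_support_iff, Finsupp.finset_sum_apply] at ht
          obtain ⟨i, hi, hne⟩ := Finset.exists_ne_zero_of_sum_ne_zero ht
          have hi' : t ∈ (y i).support := by
            rw [Finsupp.mem_support_iff]
            intro h0
            exact hne (by simp [h0])
          refine hyB.lt (show n < i by have := (Finset.mem_Ico.1 hi).1; omega) _ ?_ t hi'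
          rw [Finsupp.mem_support_iff, (hf4 (σ n)).2.1]
          exact one_ne_zero
    exact H m 0 (by omega) [] (List.nil_sublist _)

end Pool.Agent.H.MP_b25485_lc
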