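import Mathlib
import Pool.Agent.H.MP_b25485_lc.A

set_option autoImplicit false

namespace Pool.Agent.H.MP_b25485_lc

open Set Filter

variable {F : Type} [Field F]

theorem generic [Infinite F] {Z : ℕ → (ℕ →₀ F)} (hZ : Blk Z) :
    ∃ z : ℕ → (ℕ →₀ F), Blk z ∧ Sp z = Sp Z ∧ ∀ i j, i < j → ∀ p ∈ (z i).support,
      ∀ q ∈ (z j).support, z i p ≠ z j q := by
  classical
  have key : ∀ (T : Finset F) (v : ℕ →₀ F), ∃ c : F, c ≠ 0 ∧ ∀ q ∈ v.support, c * v q ∉ T := by
    intro T v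
    obtain ⟨c, hc⟩ := Infinite.exists_notMem_finset
      (insert 0 ((T ×ˢ v.support).image fun x => x.1 / v x.2))
    rw [Finset.mem_insert, not_or] at hc
    refine ⟨c, hc.1, fun q hq hT => hc.2 (Finset.mem_image.2 ⟨(c * v q, q),
      Finset.mem_product.2 ⟨hT, hq⟩, ?_⟩)⟩
    exact mul_div_cancel_right₀ _ (Finsupp.mem_support_iff.1 hq)
  choose c hc0 hc using key
  let T : ℕ → Finset F := fun n => Nat.rec ∅
    (fun k x => x ∪ (Z k).support.image fun q => c x (Z k) * Z k q) n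
  have hT : Monotone T := monotone_nat_of_le_succ fun n => Finset.subset_union_left
  let z : ℕ → (ℕ →₀ F) := fun n => c (T n) (Z n) • Z n
  have hs : ∀ n, (z n).support = (Z n).support := fun n => Finsupp.support_smul_eq (hc0 _ _)
  refine ⟨z, fun n => ⟨smul_ne_zero (hc0 _ _) (hZ n).1, ?_⟩, ?_, ?_⟩
  · rw [hs n, hs (n+1)]; exact (hZ n).2
  · have : Submodule.span F (Set.range z) = Submodule.span F (Set.range Z) := by
      apply le_antisymm <;> rw [Submodule.span_le] <;> rintro _ ⟨n, rfl⟩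
      · exact Submodule.smul_mem _ _ (Submodule.subset_span ⟨n, rfl⟩)
      · have : Z n = (c (T n) (Z n))⁻¹ • z n := by
          simp only [z]
          rw [smul_smul, inv_mul_cancel₀ (hc0 _ _), one_smul]
        rw [this]
        exact Submodule.smul_mem _ _ (Submodule.subset_span ⟨n, rfl⟩)
    unfold Sp
    rw [this]
  · intro i j hij p hp q hq he
    rw [hs] at hp hq
    apply hc (T j) (Z j) q hq
    have h1 : c (T i) (Z i) * Z i p ∈ T (i+1) :=
      Finset.mem_union_right _ (Finset.mem_image.2 ⟨p, hp, rfl⟩)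
    have h2 : c (T j) (Z j) * Z j q = c (T i) (Z i) * Z i p := by
      simpa [z] using he.symm
    rw [h2]
    exact hT hij h1

theorem Dec.inv {B : List (ℕ →₀ F) → Set (ℕ →₀ F)} {s : List (ℕ →₀ F)} {v : ℕ →₀ F}
    (h : Dec B s v) : v = 0 ∨ ∃ (u w : ℕ →₀ F) (a : F) (p q : ℕ), v = a • u + w ∧ u ∈ B s ∧ Mk u p q ∧ a ≠ 0 ∧
      (∀ t ∈ w.support, q < t) ∧ Dec B (s ++ [u]) w := by
  induction h with
  | base => exact Or.inl rfl
  | step s u w a p q h1 h2 h3 h4 h5 _ => exact Or.inr ⟨u, w, a, p, q, rfl, h1, h2, h3, h4, h5⟩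

/-- The invariant of the extraction. -/
def Inv (B : List (ℕ →₀ F) → Set (ℕ →₀ F)) (z : ℕ → (ℕ →₀ F)) (s : List (ℕ →₀ F)) (p : ℕ) :
    Prop :=
  ∃ᶠ m in atTop, Dec B s ((∑ i ∈ Finset.range m, z i).filter fun t => p ≤ t)

theorem stepI {B : List (ℕ →₀ F) → Set (ℕ →₀ F)} {z : ℕ → (ℕ →₀ F)} (hz : Blk z)
    (hg : ∀ i j, i < j → ∀ p ∈ (z i).support, ∀ q ∈ (z j).support, z i p ≠ z j q)
    (s : List (ℕ →₀ F)) (p : ℕ) (h : Inv B z s p) :
    ∃ u q, u ∈ B s ∧ u ≠ 0 ∧ p ≤ q ∧ (∀ t ∈ u.support, p ≤ t ∧ t ≤ q) ∧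
      Inv B z (s ++ [u]) (q+1) ∧
      ∀ i, ((z i).filter fun t => p ≤ t ∧ t ≤ q) ∈ Submodule.span F {u} := by
  classical
  have hex : ∃ i, ∃ t ∈ (z i).support, p ≤ t := by
    obtain ⟨t, ht⟩ := Finsupp.support_nonempty_iff.2 (hz p).1
    exact ⟨p, t, ht, hz.le p t ht⟩
  set i0 := Nat.find hex with hi0
  obtain ⟨a0, ha0, hpa⟩ : ∃ t ∈ (z i0).support, p ≤ t := Nat.find_spec hex
  have hmin : ∀ i, i < i0 → ∀ t ∈ (z i).support, ¬ p ≤ t := fun i hi t ht hp =>
    Nat.find_min hex hi ⟨t, ht, hp⟩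
  have F1 : ∀ m i t, i < m → t ∈ (z i).support → (∑ i ∈ Finset.range m, z i) t = z i t := by
    intro m i t hi ht
    rw [Finsupp.finset_sum_apply, Finset.sum_eq_single i]
    · intro b _ hb; exact hz.zero hb ht
    · intro h2; exact absurd (Finset.mem_range.2 hi) h2
  have F2 : ∀ m t, (∑ i ∈ Finset.range m, z i) t ≠ 0 → ∃ i, i < m ∧ t ∈ (z i).support := by
    intro m t ht
    rw [Finsupp.finset_sum_apply] at ht
    obtain ⟨i, hi, hne⟩ := Finset.exists_ne_zero_of_sum_ne_zero ht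
    exact ⟨i, Finset.mem_range.1 hi, Finsupp.mem_support_iff.2 hne⟩
  let U : ℕ → (ℕ →₀ F) := fun q => (z i0 q)⁻¹ • (z i0).filter fun t => p ≤ t ∧ t ≤ q
  have oth : ∀ q ∈ (z i0).support, ∀ i, i ≠ i0 → ∀ t, p ≤ t → t ≤ q → z i t = 0 := by
    intro q hq i hi t h1 h2
    by_contra hne
    have ht := Finsupp.mem_support_iff.2 hne
    rcases lt_or_gt_of_ne hi with h3 | h3
    · exact hmin i h3 t ht h1
    · have := hz.lt h3 q hq t ht
      omega
  have H : ∃ᶠ m in atTop, ∃ q ∈ (z i0).support, (U q ∈ B s ∧ p ≤ q) ∧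
      Dec B (s ++ [U q]) ((∑ i ∈ Finset.range m, z i).filter fun t => q + 1 ≤ t) := by
    refine (h.and_eventually (eventually_gt_atTop i0)).mono ?_
    rintro m ⟨hd, hm⟩
    have hva : ((∑ i ∈ Finset.range m, z i).filter fun t => p ≤ t) a0 ≠ 0 := by
      rw [Finsupp.filter_apply, if_pos hpa, F1 m i0 a0 hm ha0]
      exact Finsupp.mem_support_iff.1 ha0
    rcases hd.inv with h0 | ⟨u, w, a, p', q, he, hu, hk, ha, hw, hd'⟩
    · rw [h0] at hva; simp at hva
    have hpq : p' ≤ q := (hk.2.2 q (by rw [Finsupp.mem_support_iff, hk.2.1]; exact one_ne_zero)).1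
    have hw0 : ∀ t, t ≤ q → w t = 0 := fun t ht => by
      by_contra hne
      have := hw t (Finsupp.mem_support_iff.2 hne)
      omega
    have hu0 : ∀ t, (t < p' ∨ q < t) → u t = 0 := fun t ht => by
      by_contra hne
      have := hk.2.2 t (Finsupp.mem_support_iff.2 hne)
      omega
    have ev : ∀ t, (if p ≤ t then (∑ i ∈ Finset.range m, z i) t else 0) = a * u t + w t := by
      intro t
      have := congrArg (fun v : ℕ →₀ F => v t) he
      simpa only [Finsupp.filter_apply, Finsupp.add_apply, Finsupp.smul_apply, smul_eq_mul]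
        using this
    have e1 := ev p'
    have e2 := ev q
    rw [hk.1, hw0 p' hpq, mul_one, add_zero] at e1
    rw [hk.2.1, hw0 q le_rfl, mul_one, add_zero] at e2
    have hp1 : p ≤ p' := by
      by_contra hc
      rw [if_neg hc] at e1
      exact ha e1.symm
    rw [if_pos hp1] at e1
    rw [if_pos (hp1.trans hpq)] at e2
    obtain ⟨i1, hi1, hs1⟩ := F2 m p' (by rw [e1]; exact ha)
    obtain ⟨i2, hi2, hs2⟩ := F2 m q (by rw [e2]; exact ha)
    rw [F1 m i1 p' hi1 hs1] at e1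
    rw [F1 m i2 q hi2 hs2] at e2
    have h12 : i1 = i2 := by
      by_contra hne
      rcases lt_or_gt_of_ne hne with h3 | h3
      · exact hg i1 i2 h3 p' hs1 q hs2 (e1.trans e2.symm)
      · exact hg i2 i1 h3 q hs2 p' hs1 (e2.trans e1.symm)
    have h10 : i1 = i0 := by
      rcases lt_trichotomy i1 i0 with h3 | h3 | h3
      · exact absurd hp1 (hmin i1 h3 p' hs1)
      · exact h3
      · exfalso
        have h4 := hz.lt h3 a0 ha0 p' hs1
        apply hva
        rw [Finsupp.filter_apply, ev a0, hu0 a0 (Or.inl h4), hw0 a0 (by omega)]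
        simp
    rw [← h12, h10] at hs2 e2
    have hU : U q = u := by
      ext t
      simp only [U, Finsupp.smul_apply, Finsupp.filter_apply, smul_eq_mul, e2]
      by_cases ht : p ≤ t ∧ t ≤ q
      · rw [if_pos ht]
        have e3 := ev t
        rw [if_pos ht.1, hw0 t ht.2, add_zero, Finsupp.finset_sum_apply,
          Finset.sum_eq_single i0 (fun b _ hb => oth q hs2 b hb t ht.1 ht.2)
            (fun h2 => absurd (Finset.mem_range.2 hm) h2)] at e3
        rw [e3, ← mul_assoc, inv_mul_cancel₀ ha, one_mul]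
      · rw [if_neg ht, mul_zero, hu0 t (by omega)]
    have hW : ((∑ i ∈ Finset.range m, z i).filter fun t => q + 1 ≤ t) = w := by
      ext t
      rw [Finsupp.filter_apply]
      by_cases ht : q + 1 ≤ t
      · have e3 := ev t
        rw [if_pos (by omega), hu0 t (by omega), mul_zero, zero_add] at e3
        rw [if_pos ht, e3]
      · rw [if_neg ht, hw0 t (by omega)]
    exact ⟨q, hs2, ⟨hU ▸ hu, hp1.trans hpq⟩, by rw [hU, hW]; exact hd'⟩
  have H2 : ∃ q ∈ (z i0).support, ∃ᶠ m in atTop, (U q ∈ B s ∧ p ≤ q) ∧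
      Dec B (s ++ [U q]) ((∑ i ∈ Finset.range m, z i).filter fun t => q + 1 ≤ t) := by
    by_contra hc
    simp only [not_exists, not_and, not_frequently] at hc
    refine (H.and_eventually ((eventually_all_finset _).2 hc)).exists.elim ?_
    rintro m ⟨⟨q, hq, h1⟩, h2⟩
    exact h2 q hq h1.1 h1.2
  obtain ⟨q, hq, H3⟩ := H2
  obtain ⟨_, ⟨hB, hpq⟩, -⟩ := H3.exists
  have hne := Finsupp.mem_support_iff.1 hq
  refine ⟨U q, q, hB, ?_, hpq, ?_, H3.mono fun m hm => hm.2, ?_⟩
  · intro h0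
    have := congrArg (fun v : ℕ →₀ F => v q) h0
    simp [U, Finsupp.filter_apply, hpq, hne] at this
  · intro t ht
    by_contra hc
    apply Finsupp.mem_support_iff.1 ht
    simp only [U, Finsupp.smul_apply, Finsupp.filter_apply, if_neg hc, smul_zero]
  · intro i
    by_cases hi : i = i0
    · rw [Submodule.mem_span_singleton]
      refine ⟨z i0 q, ?_⟩
      simp only [U]
      rw [smul_smul, mul_inv_cancel₀ hne, one_smul, hi]
    · have : ((z i).filter fun t => p ≤ t ∧ t ≤ q) = 0 := by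
        ext t
        rw [Finsupp.filter_apply]
        split_ifs with ht
        · exact oth q hq i hi t ht.1 ht.2
        · rfl
      rw [this]
      exact zero_mem _

/-- Strong diagonalisation property, in set form. -/
def Str (𝓕 : Filter (ℕ →₀ F)) : Prop :=
  ∀ B : List (ℕ →₀ F) → Set (ℕ →₀ F), (∀ s, B s ∈ 𝓕) → ∃ X, Blk X ∧ Sp X ∈ 𝓕 ∧
    ∀ k, X k ∈ B (List.ofFn fun i : Fin k => X i)

theorem str_inf [Infinite F] {𝓕 : Filter (ℕ →₀ F)} (hb : Base 𝓕) (hf : Full 𝓕) : Str 𝓕 := by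
  intro B hB
  obtain ⟨Z, hZ, hZF, hZD⟩ := hb _ (dec_mem hb hf B hB)
  obtain ⟨z, hz, hs, hg⟩ := generic hZ
  rw [← hs] at hZF hZD
  have h0 : Inv B z [] 0 := by
    refine (Eventually.of_forall fun m => ?_).frequently
    rw [Finsupp.filter_eq_self_iff _ _ |>.2 fun _ _ => Nat.zero_le _]
    by_cases h : ∑ i ∈ Finset.range m, z i = 0
    · rw [h]; exact Dec.base _
    · exact hZD ⟨Submodule.sum_mem _ fun i _ => Submodule.subset_span ⟨i, rfl⟩, h⟩
  choose u q h1 h2 h3 h4 h5 h6 using stepI (B := B) hz hg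
  let σ : ℕ → {x : List (ℕ →₀ F) × ℕ // Inv B z x.1 x.2} := fun n =>
    Nat.rec ⟨([], 0), h0⟩ (fun _ x => ⟨(x.1.1 ++ [u _ _ x.2], q _ _ x.2 + 1), h5 _ _ x.2⟩) n
  let X : ℕ → (ℕ →₀ F) := fun n => u _ _ (σ n).2
  have hl : ∀ k, (σ k).1.1 = List.ofFn fun i : Fin k => X i := by
    intro k
    induction k with
    | zero => rfl
    | succ k ih =>
      rw [List.ofFn_succ_last]
      simp only [Fin.val_castSucc, Fin.val_last]
      rw [← ih]
  have hp : ∀ k, (σ (k+1)).1.2 = q _ _ (σ k).2 + 1 := fun k => rfl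
  have hge : ∀ k, k ≤ (σ k).1.2 := by
    intro k
    induction k with
    | zero => exact Nat.zero_le _
    | succ k ih => have := h3 _ _ (σ k).2; rw [hp]; omega
  refine ⟨X, fun n => ⟨h2 _ _ (σ n).2, fun i hi j hj => ?_⟩, ?_, fun k => ?_⟩
  · have a1 := (h4 _ _ (σ n).2 i hi).2
    have a2 := (h4 _ _ (σ (n+1)).2 j hj).1
    rw [hp] at a2
    omega
  · refine mem_of_superset hZF fun v hv => ⟨Submodule.span_le.2 ?_ hv.1, hv.2⟩
    rintro _ ⟨i, rfl⟩
    have H : ∀ k, ((z i).filter fun t => t < (σ k).1.2) ∈ Submodule.span F (Set.range X) := by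
      intro k
      induction k with
      | zero =>
        have : ((z i).filter fun t => t < (σ 0).1.2) = 0 := by
          ext t
          rw [Finsupp.filter_apply, if_neg (show ¬ t < (σ 0).1.2 from Nat.not_lt_zero t)]
          rfl
        rw [this]; exact zero_mem _
      | succ k ih =>
        have : ((z i).filter fun t => t < (σ (k+1)).1.2) =
            ((z i).filter fun t => t < (σ k).1.2) +
            (z i).filter fun t => (σ k).1.2 ≤ t ∧ t ≤ q _ _ (σ k).2 := by
          ext t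
          have := h3 _ _ (σ k).2
          simp only [Finsupp.filter_apply, Finsupp.add_apply, hp]
          split_ifs <;> first | omega | simp
        rw [this]
        refine add_mem ih (Submodule.span_mono ?_ (h6 _ _ (σ k).2 i))
        rintro _ rfl
        exact ⟨k, rfl⟩
    obtain ⟨m, hm⟩ := (z i).support.exists_nat_subset_range
    have := H m
    rwa [(Finsupp.filter_eq_self_iff _ _).2 fun t ht => lt_of_lt_of_le
      (Finset.mem_range.1 (hm (Finsupp.mem_support_iff.2 ht))) (hge m)] at this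
  · rw [← hl]; exact h1 _ _ (σ k).2

end Pool.Agent.H.MP_b25485_lc
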