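import Mathlib
import Pool.Agent.H.MP_b25485_lc.B

set_option autoImplicit false

namespace Pool.Agent.H.MP_b25485_lc

open Set Filter

variable {F : Type} [Field F]

open Classical in
/-- Number of short gaps. -/
noncomputable def cg (N : ℕ → ℕ) (S : Finset ℕ) : ℕ :=
  (S.filter fun a => ∃ b ∈ S, a < b ∧ b ≤ N a).card

open Classical in
theorem cg_add (N : ℕ → ℕ) (S T : Finset ℕ) (hST : ∀ a ∈ S, ∀ b ∈ T, a < b) (a0 : ℕ)
    (h0 : a0 ∈ S) (hm : ∀ a ∈ S, a ≤ a0) :
    cg N (S ∪ T) = cg N S + cg N T + if ∃ b ∈ T, b ≤ N a0 then 1 else 0 := by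
  have hd : Disjoint S T := Finset.disjoint_left.2 fun a h1 h2 => lt_irrefl _ (hST a h1 a h2)
  unfold cg
  rw [Finset.filter_union, Finset.card_union_of_disjoint (Finset.disjoint_filter_filter hd)]
  have e2 : (T.filter fun a => ∃ b ∈ S ∪ T, a < b ∧ b ≤ N a) =
      T.filter fun a => ∃ b ∈ T, a < b ∧ b ≤ N a := by
    refine Finset.filter_congr fun a ha => ⟨?_, ?_⟩
    · rintro ⟨b, hb, h1, h2⟩
      rcases Finset.mem_union.1 hb with h | h
      · exact absurd (hST b h a ha) (by omega)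
      · exact ⟨b, h, h1, h2⟩
    · rintro ⟨b, hb, h1⟩
      exact ⟨b, Finset.mem_union_right _ hb, h1⟩
  have k : ∀ a ∈ S, a ≠ a0 → ((∃ b ∈ S ∪ T, a < b ∧ b ≤ N a) ↔ ∃ b ∈ S, a < b ∧ b ≤ N a) := by
    intro a ha hne
    refine ⟨?_, ?_⟩
    · rintro ⟨b, hb, h1, h2⟩
      rcases Finset.mem_union.1 hb with h | h
      · exact ⟨b, h, h1, h2⟩
      · have := hm a ha
        have := hST a0 h0 b h
        exact ⟨a0, h0, by omega, by omega⟩
    · rintro ⟨b, hb, h1⟩
      exact ⟨b, Finset.mem_union_left _ hb, h1⟩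
  have k0 : ¬ ∃ b ∈ S, a0 < b ∧ b ≤ N a0 := by
    rintro ⟨b, hb, h1, -⟩
    have := hm b hb
    omega
  rw [e2]
  split_ifs with hs
  · have e1 : (S.filter fun a => ∃ b ∈ S ∪ T, a < b ∧ b ≤ N a) =
        insert a0 (S.filter fun a => ∃ b ∈ S, a < b ∧ b ≤ N a) := by
      ext a
      rw [Finset.mem_insert, Finset.mem_filter, Finset.mem_filter]
      by_cases ha : a = a0
      · subst ha
        obtain ⟨b, hb, h1⟩ := hs
        exact ⟨fun _ => Or.inl rfl, fun _ => ⟨h0, b, Finset.mem_union_right _ hb, hST _ h0 b hb, h1⟩⟩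
      · exact ⟨fun h => Or.inr ⟨h.1, (k a h.1 ha).1 h.2⟩,
          fun h => (h.resolve_left ha).elim fun h1 h2 => ⟨h1, (k a h1 ha).2 h2⟩⟩
    have k1 : a0 ∉ (S.filter fun a => ∃ b ∈ S, a < b ∧ b ≤ N a) := by
      rw [Finset.mem_filter]; exact fun h => k0 h.2
    rw [e1, Finset.card_insert_of_notMem k1]
    omega
  · have e1 : (S.filter fun a => ∃ b ∈ S ∪ T, a < b ∧ b ≤ N a) =
        (S.filter fun a => ∃ b ∈ S, a < b ∧ b ≤ N a) := by
      refine Finset.filter_congr fun a ha => ?_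
      by_cases h : a = a0
      · subst h
        refine ⟨?_, fun h => absurd h k0⟩
        rintro ⟨b, hb, h1, h2⟩
        rcases Finset.mem_union.1 hb with h | h
        · exact ⟨b, h, h1, h2⟩
        · exact absurd ⟨b, h, h2⟩ hs
      · exact k a ha h
    rw [e1]
    omega

open Classical in
theorem cg_vec (N : ℕ → ℕ) (u w : ℕ →₀ F) (h : ∀ a ∈ u.support, ∀ b ∈ w.support, a < b) (a0 : ℕ)
    (h0 : a0 ∈ u.support) (hm : ∀ a ∈ u.support, a ≤ a0) :
    cg N (u + w).support = cg N u.support + cg N w.support +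
      if ∃ b ∈ w.support, b ≤ N a0 then 1 else 0 := by
  rw [Finsupp.support_add_eq (Finset.disjoint_left.2 fun a h1 h2 => lt_irrefl _ (h a h1 a h2))]
  exact cg_add N _ _ h a0 h0 hm

theorem exmax {v : ℕ →₀ F} (h : v ≠ 0) : ∃ a ∈ v.support, ∀ b ∈ v.support, b ≤ a :=
  ⟨_, Finset.max'_mem _ (Finsupp.support_nonempty_iff.2 h), fun b hb => Finset.le_max' _ _ hb⟩

theorem even_mem {𝓕 : Filter (ℕ →₀ F)} (hf : Full 𝓕) (N : ℕ → ℕ) :
    {v : ℕ →₀ F | Even (cg N v.support)} ∈ 𝓕 := by
  apply hf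
  intro X hX _
  have mX : ∀ n, X n ∈ Sp X := fun n => ⟨Submodule.subset_span ⟨n, rfl⟩, (hX n).1⟩
  have key : ∀ M : ℕ, ∃ y : (ℕ →₀ F) × ℕ, y.1 ∈ Sp X ∧ Even (cg N y.1.support) ∧
      (∀ t ∈ y.1.support, M ≤ t) ∧ y.2 ∈ y.1.support ∧ ∀ b ∈ y.1.support, b ≤ y.2 := by
    intro M
    have fin : ∀ y : ℕ →₀ F, y ∈ Sp X → Even (cg N y.support) → (∀ t ∈ y.support, M ≤ t) →
        ∃ y : (ℕ →₀ F) × ℕ, y.1 ∈ Sp X ∧ Even (cg N y.1.support) ∧
      (∀ t ∈ y.1.support, M ≤ t) ∧ y.2 ∈ y.1.support ∧ ∀ b ∈ y.1.support, b ≤ y.2 := by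
      intro y h1 h2 h3
      obtain ⟨a, ha, hb⟩ := exmax (show y ≠ 0 from h1.2)
      exact ⟨(y, a), h1, h2, h3, ha, hb⟩
    by_cases h1 : Even (cg N (X M).support)
    · exact fin _ (mX M) h1 (hX.le M)
    obtain ⟨a, ha, hb⟩ := exmax (hX M).1
    set j := M + N a + 1
    by_cases h2 : Even (cg N (X j).support)
    · exact fin _ (mX j) h2 fun t ht => by have := hX.le j t ht; omega
    have hlt := hX.lt (show M < j by omega)
    have hc := cg_vec N (X M) (X j) hlt a ha hb
    rw [if_neg (by rintro ⟨b, hb1, hb2⟩; have := hX.le j b hb1; omega)] at hc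
    have hs := Finsupp.support_add_eq (Finset.disjoint_left.2 fun a h1 h2 =>
      lt_irrefl _ (hlt a h1 a h2))
    refine fin (X M + X j) ⟨add_mem (mX M).1 (mX j).1, ?_⟩ ?_ ?_
    · intro h0
      rw [Set.mem_singleton_iff] at h0
      have : a ∈ (X M + X j).support := by rw [hs]; exact Finset.mem_union_left _ ha
      rw [h0] at this
      simp at this
    · rw [hc, add_zero]
      exact (Nat.not_even_iff_odd.1 h1).add_odd (Nat.not_even_iff_odd.1 h2)
    · intro t ht
      rw [hs] at ht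
      rcases Finset.mem_union.1 ht with h | h
      · exact hX.le M t h
      · have := hX.le j t h; omega
  choose f hf1 hf2 hf3 hf4 hf5 using key
  let σ : ℕ → ℕ := fun n => Nat.rec 0 (fun _ x => (f x).2 + N (f x).2 + 1) n
  let y : ℕ → (ℕ →₀ F) := fun n => (f (σ n)).1
  have hσ : ∀ n, σ (n+1) = (f (σ n)).2 + N (f (σ n)).2 + 1 := fun n => rfl
  have hyB : Blk y := by
    intro n
    refine ⟨(hf1 (σ n)).2, fun i hi j hj => ?_⟩
    have h1 := hf5 (σ n) i hi
    have h2 := hf3 (σ (n+1)) j hj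
    rw [hσ] at h2
    omega
  refine ⟨Submodule.span F (Set.range y), hyB.inf, ?_, ?_⟩
  · intro v hv
    refine ⟨Submodule.span_le.2 ?_ hv.1, hv.2⟩
    rintro _ ⟨n, rfl⟩
    exact (hf1 (σ n)).1
  · intro v hv
    obtain ⟨a, m, rfl⟩ := span_sum hv.1
    have H : ∀ d n, n + d = m → Even (cg N (∑ i ∈ Finset.Ico n m, a i • y i).support) := by
      intro d
      induction d with
      | zero =>
        intro n hn
        simp [← hn, cg]
      | succ d ih =>
        intro n hn
        rw [Finset.sum_eq_sum_Ico_succ_bot (by omega)]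
        by_cases ha : a n = 0
        · rw [ha, zero_smul, zero_add]
          exact ih (n+1) (by omega)
        · have hw : ∀ t ∈ (∑ i ∈ Finset.Ico (n+1) m, a i • y i).support, σ (n+1) ≤ t := by
            intro t ht
            rw [Finsupp.mem_support_iff, Finsupp.finset_sum_apply] at ht
            obtain ⟨i, hi, hne⟩ := Finset.exists_ne_zero_of_sum_ne_zero ht
            have hi' : t ∈ (y i).support := by
              rw [Finsupp.mem_support_iff]
              intro h0
              exact hne (by simp [h0])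
            rcases (Finset.mem_Ico.1 hi).1.eq_or_lt with h | h
            · rw [← h] at hi'; exact hf3 _ t hi'
            · exact (hf3 _ _ (hf4 (σ (n+1)))).trans (hyB.lt h _ (hf4 (σ (n+1))) t hi').le
          have hs : (a n • y n).support = (y n).support := Finsupp.support_smul_eq ha
          rw [cg_vec N _ _ ?_ (f (σ n)).2 (by rw [hs]; exact hf4 _) (by rw [hs]; exact hf5 _),
            if_neg, hs, add_zero]
          · exact (hf2 _).add (ih (n+1) (by omega))
          · rintro ⟨b, hb, h1⟩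
            have := hw b hb
            rw [hσ] at this
            omega
          · intro s hs' t ht
            rw [hs] at hs'
            have h1 := hw t ht
            have h2 := hf5 _ s hs'
            rw [hσ] at h1
            omega
    exact H m 0 (by omega)

theorem spread {𝓕 : Filter (ℕ →₀ F)} (hb : Base 𝓕) (hf : Full 𝓕) (N : ℕ → ℕ)
    {C : Set (ℕ →₀ F)} (hC : C ∈ 𝓕) : ∃ X, Blk X ∧ Sp X ∈ 𝓕 ∧ Sp X ⊆ C ∧
      ∀ k, ∀ a ∈ (X k).support, (∀ b ∈ (X k).support, b ≤ a) →
        ∀ b ∈ (X (k+1)).support, N a < b := by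
  obtain ⟨X, h1, h2, h3⟩ := hb _ (inter_mem hC (even_mem hf N))
  have mX : ∀ n, X n ∈ Sp X := fun n => ⟨Submodule.subset_span ⟨n, rfl⟩, (h1 n).1⟩
  refine ⟨X, h1, h2, fun v hv => (h3 hv).1, fun k a ha hm b hb => ?_⟩
  by_contra hc
  have e := cg_vec N (X k) (X (k+1)) (h1 k).2 a ha hm
  rw [if_pos ⟨b, hb, by omega⟩] at e
  have e1 : Even (cg N (X k).support) := (h3 (mX k)).2
  have e2 : Even (cg N (X (k+1)).support) := (h3 (mX (k+1))).2
  have e3 : Even (cg N (X k + X (k+1)).support) := by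
    refine (h3 ⟨add_mem (mX k).1 (mX (k+1)).1, ?_⟩).2
    intro h0
    rw [Set.mem_singleton_iff] at h0
    rw [h0] at e
    simp [cg] at e
  rw [e] at e3
  exact (Nat.even_add_one.1 e3) (e1.add e2)

/-- The (p)-property. -/
def PP (𝓕 : Filter (ℕ →₀ F)) : Prop :=
  ∀ Xs : ℕ → ℕ → (ℕ →₀ F), (∀ m, Blk (Xs m) ∧ Sp (Xs m) ∈ 𝓕) →
    ∃ X, Blk X ∧ Sp X ∈ 𝓕 ∧ ∀ m, {n | X n ∉ Sp (Xs m)}.Finite

theorem str_fin [Finite F] {𝓕 : Filter (ℕ →₀ F)} (hb : Base 𝓕) (hf : Full 𝓕) (hp : PP 𝓕) :
    Str 𝓕 := by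
  classical
  intro B hB
  choose Y hY1 hY2 hY3 using fun s => hb _ (hB s)
  obtain ⟨e, he⟩ := exists_surjective_nat (List (ℕ →₀ F))
  obtain ⟨W, hW, hWF, hW2⟩ := hp (fun m => Y (e m)) fun m => ⟨hY1 _, hY2 _⟩
  have key : ∀ s, ∃ M, ∀ v ∈ Sp W, (∀ t ∈ v.support, M ≤ t) → v ∈ B s := by
    intro s
    obtain ⟨m, rfl⟩ := he s
    obtain ⟨k, hk⟩ := (hW2 m).bddAbove
    have hne := Finsupp.support_nonempty_iff.2 (hW (k+1)).1
    have hM := Finset.min'_mem _ hne
    set M := (W (k+1)).support.min' hne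
    have H : ∀ v ∈ Submodule.span F (Set.range W),
        (v.filter fun t => M ≤ t) ∈ Submodule.span F (Set.range (Y (e m))) := by
      intro v hv
      induction hv using Submodule.span_induction with
      | mem x hx =>
        obtain ⟨n, rfl⟩ := hx
        by_cases hn : k < n
        · rw [(Finsupp.filter_eq_self_iff _ _).2]
          · by_contra hc
            have : n ≤ k := hk fun h : W n ∈ Sp (Y (e m)) => hc h.1
            omega
          · intro t ht
            have ht' := Finsupp.mem_support_iff.2 ht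
            rcases (Nat.succ_le_of_lt hn).eq_or_lt with h | h
            · rw [← h] at ht'; exact Finset.min'_le _ _ ht'
            · exact (hW.lt h _ hM t ht').le
        · rw [(Finsupp.filter_eq_zero_iff _ _).2]
          · exact zero_mem _
          · intro t ht
            by_contra hc
            have := hW.lt (show n < k + 1 by omega) t (Finsupp.mem_support_iff.2 hc) _ hM
            omega
      | zero => rw [Finsupp.filter_zero]; exact zero_mem _
      | add x y _ _ h1 h2 => rw [Finsupp.filter_add]; exact add_mem h1 h2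
      | smul a x _ h1 => rw [Finsupp.filter_smul]; exact Submodule.smul_mem _ _ h1
    refine ⟨M, fun v hv ht => hY3 _ ⟨?_, hv.2⟩⟩
    have := H v hv.1
    rwa [(Finsupp.filter_eq_self_iff _ _).2 fun t h => ht t (Finsupp.mem_support_iff.2 h)] at this
  choose M hM using key
  have fin : ∀ t : ℕ, {s : List (ℕ →₀ F) | s.length ≤ t + 1 ∧
      ∀ v ∈ s, ∀ i ∈ v.support, i < t + 1}.Finite := by
    intro t
    have h1 : {v : ℕ →₀ F | ∀ i ∈ v.support, i < t + 1}.Finite := by
      refine Set.Finite.of_finite_image (f := fun v => fun i : Fin (t+1) => v i)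
        (Set.toFinite _) ?_
      intro v hv w hw h
      ext i
      by_cases hi : i < t + 1
      · exact congrFun h ⟨i, hi⟩
      · rw [Finsupp.notMem_support_iff.1 fun h => hi (hv i h),
          Finsupp.notMem_support_iff.1 fun h => hi (hw i h)]
    haveI := h1.to_subtype
    refine ((List.finite_length_le {v : ℕ →₀ F | ∀ i ∈ v.support, i < t + 1} (t+1)).image
      (List.map Subtype.val)).subset ?_
    rintro s ⟨hs1, hs2⟩
    exact ⟨s.attachWith _ hs2, by rw [Set.mem_setOf_eq, List.length_attachWith]; exact hs1,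
      List.attachWith_map_subtype_val _⟩
  obtain ⟨X, h1, h2, h3, h4⟩ := spread hb hf (fun t => (fin t).toFinset.sup M)
    (inter_mem hWF (hB []))
  have mX : ∀ n, X n ∈ Sp X := fun n => ⟨Submodule.subset_span ⟨n, rfl⟩, (h1 n).1⟩
  refine ⟨X, h1, h2, fun k => ?_⟩
  cases k with
  | zero => exact (h3 (mX 0)).2
  | succ k =>
    obtain ⟨a, ha, hm⟩ := exmax (h1 k).1
    refine hM _ _ (h3 (mX (k+1))).1 fun t ht => le_trans ?_ (h4 k a ha hm t ht).le
    refine Finset.le_sup (f := M) ((Set.Finite.mem_toFinset _).2 ⟨?_, ?_⟩)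
    · have := h1.le k a ha
      simp only [List.length_ofFn]
      omega
    · intro v hv i hi
      obtain ⟨j, rfl⟩ := (List.mem_ofFn' _ _).1 hv
      rcases (Nat.le_of_lt_succ j.2).eq_or_lt with h | h
      · have := hm i (h ▸ hi); omega
      · have := h1.lt h i hi a ha; omega

end Pool.Agent.H.MP_b25485_lc
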